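import Mathlib
import Pool.Agent.R720.SierpFour

/-! For every `B` there is an arithmetic progression of integers `m` such that `d = m ^ 4` is
prime-free, while the least prime factor of `d * 2 ^ k + 1` exceeds `B` for all `k ≡ 2 (mod 4)`
and every finite set of primes meeting every term has more than `B` members exceeding `B`. -/

namespace Pool.Agent.Results.MP_2e7a1b_nt.NoBoundedCovering

theorem result (B : ℕ) : ∃ Q r : ℕ, 0 < Q ∧ ∀ m : ℕ, m ≡ r [MOD Q] →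
    Odd (m ^ 4) ∧ (∀ k, 1 < m ^ 4 * 2 ^ k + 1 ∧ ¬ (m ^ 4 * 2 ^ k + 1).Prime) ∧
    (∀ k, k % 4 = 2 → B < (m ^ 4 * 2 ^ k + 1).minFac) ∧
    (∀ P : Finset ℕ, (∀ p ∈ P, p.Prime) → (∀ k, 1 ≤ k → ∃ p ∈ P, p ∣ m ^ 4 * 2 ^ k + 1) →
      B < (P.filter (fun p => B < p)).card) :=
  Pool.Agent.R720.SierpFour.main B

end Pool.Agent.Results.MP_2e7a1b_nt.NoBoundedCovering
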